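import Pool.Agent.H38.FT.Model
import Pool.Agent.H38.FT.Rows
import Pool.Agent.H38.FT.Inj

/-! Data of a set of points (generated). -/

namespace Pool.Agent.H38.FT

open Code

/-- points and generators -/
def cubM : Model where
  n := 8
  pts := [
    ⟨(2, 0), (0, 0), (2, 0), (0, 0), (2, 0), (0, 0)⟩,
    ⟨(2, 0), (0, 0), (-2, 0), (0, 0), (-2, 0), (0, 0)⟩,
    ⟨(-2, 0), (0, 0), (2, 0), (0, 0), (2, 0), (0, 0)⟩,
    ⟨(-2, 0), (0, 0), (-2, 0), (0, 0), (-2, 0), (0, 0)⟩,
    ⟨(-2, 0), (0, 0), (2, 0), (0, 0), (-2, 0), (0, 0)⟩,
    ⟨(2, 0), (0, 0), (2, 0), (0, 0), (-2, 0), (0, 0)⟩,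
    ⟨(2, 0), (0, 0), (-2, 0), (0, 0), (2, 0), (0, 0)⟩,
    ⟨(-2, 0), (0, 0), (-2, 0), (0, 0), (2, 0), (0, 0)⟩]
  gc := fun l => match l with
    | .c => 4743909630208
    | .d => 17942343856129
    | .q => 26392624656706
    | .p => 0
    | .n => 22272727322755
    | .s => 0

/-- the elements of Th -/
def cubTh : List (List Letter × ℕ) := [
  ([], 31204079050816),
  ([.c], 4743909630208),
  ([.d], 17942343856129),
  ([.n], 22272727322755),
  ([.c, .c], 17736085033408),
  ([.d, .c], 415605739969),
  ([.n, .c], 9278287004035),
  ([.c, .d], 30929151602692),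
  ([.n, .d], 26873694519490),
  ([.d, .c, .c], 30997853266177),
  ([.n, .c, .c], 26461327094083),
  ([.c, .d, .c], 346937630788),
  ([.n, .d, .c], 13469118394690),
  ([.c, .c, .d], 4812579287047),
  ([.d, .c, .d], 17804788244551),
  ([.n, .c, .d], 22066502828230),
  ([.c, .d, .c, .c], 4606354018756),
  ([.n, .d, .c, .c], 21997799358850),
  ([.c, .c, .d, .c], 140678291719),
  ([.n, .c, .d, .c], 13675260809350),
  ([.n, .c, .c, .d], 9072147169477),
  ([.n, .d, .c, .d], 26392626204805),
  ([.n, .c, .d, .c, .c], 8797218173254),
  ([.n, .c, .c, .d, .c], 13262894416261)]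

/-- the codes of the elements of Th -/
def cubThE : List ℕ := [
  31204079050816,
  4743909630208,
  17942343856129,
  22272727322755,
  17736085033408,
  415605739969,
  9278287004035,
  30929151602692,
  26873694519490,
  30997853266177,
  26461327094083,
  346937630788,
  13469118394690,
  4812579287047,
  17804788244551,
  22066502828230,
  4606354018756,
  21997799358850,
  140678291719,
  13675260809350,
  9072147169477,
  26392626204805,
  8797218173254,
  13262894416261]

theorem cubTh_map : cubTh.map Prod.snd = cubThE := by decide +kernel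

theorem cubTh_ok : cubM.okGroup .Th cubTh = true := by decide +kernel

theorem cubTh_trans : cubM.okTrans cubTh = true := by decide +kernel

/-- the elements of O -/
def cubO : List (List Letter × ℕ) := [
  ([], 31204079050816),
  ([.c], 4743909630208),
  ([.d], 17942343856129),
  ([.q], 26392624656706),
  ([.c, .c], 17736085033408),
  ([.d, .c], 415605739969),
  ([.q, .c], 22272727580866),
  ([.c, .d], 30929151602692),
  ([.q, .d], 13469119942789),
  ([.c, .q], 21997800132742),
  ([.d, .q], 22066501796227),
  ([.q, .q], 140678291719),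
  ([.d, .c, .c], 30997853266177),
  ([.q, .c, .c], 13675260035458),
  ([.c, .d, .c], 346937630788),
  ([.q, .d, .c], 8797218947461),
  ([.c, .q, .c], 9278288036038),
  ([.d, .q, .c], 26873694261379),
  ([.q, .q, .c], 17804788244551),
  ([.c, .c, .d], 4812579287047),
  ([.q, .q, .d], 4606354018756),
  ([.d, .c, .q], 26461328900293),
  ([.c, .d, .q], 9072145363267),
  ([.c, .q, .c, .c], 13262893642054)]

/-- the codes of the elements of O -/
def cubOE : List ℕ := [
  31204079050816,
  4743909630208,
  17942343856129,
  26392624656706,
  17736085033408,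
  415605739969,
  22272727580866,
  30929151602692,
  13469119942789,
  21997800132742,
  22066501796227,
  140678291719,
  30997853266177,
  13675260035458,
  346937630788,
  8797218947461,
  9278288036038,
  26873694261379,
  17804788244551,
  4812579287047,
  4606354018756,
  26461328900293,
  9072145363267,
  13262893642054]

theorem cubO_map : cubO.map Prod.snd = cubOE := by decide +kernel

theorem cubO_ok : cubM.okGroup .O cubO = true := by decide +kernel

theorem cubO_trans : cubM.okTrans cubO = true := by decide +kernel

/-- the elements of Oh -/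
def cubOh : List (List Letter × ℕ) := [
  ([], 31204079050816),
  ([.c], 4743909630208),
  ([.d], 17942343856129),
  ([.q], 26392624656706),
  ([.n], 22272727322755),
  ([.c, .c], 17736085033408),
  ([.d, .c], 415605739969),
  ([.q, .c], 22272727580866),
  ([.n, .c], 9278287004035),
  ([.c, .d], 30929151602692),
  ([.q, .d], 13469119942789),
  ([.n, .d], 26873694519490),
  ([.c, .q], 21997800132742),
  ([.d, .q], 22066501796227),
  ([.q, .q], 140678291719),
  ([.n, .q], 17804787470785),
  ([.d, .c, .c], 30997853266177),
  ([.q, .c, .c], 13675260035458),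
  ([.n, .c, .c], 26461327094083),
  ([.c, .d, .c], 346937630788),
  ([.q, .d, .c], 8797218947461),
  ([.n, .d, .c], 13469118394690),
  ([.c, .q, .c], 9278288036038),
  ([.d, .q, .c], 26873694261379),
  ([.q, .q, .c], 17804788244551),
  ([.n, .q, .c], 31204078792705),
  ([.c, .c, .d], 4812579287047),
  ([.n, .c, .d], 22066502828230),
  ([.q, .q, .d], 4606354018756),
  ([.n, .q, .d], 415606513735),
  ([.d, .c, .q], 26461328900293),
  ([.n, .c, .q], 30997854298180),
  ([.c, .d, .q], 9072145363267),
  ([.n, .d, .q], 30929150828800),
  ([.n, .q, .q], 13262894416261),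
  ([.n, .d, .c, .c], 21997799358850),
  ([.c, .q, .c, .c], 13262893642054),
  ([.n, .q, .c, .c], 346936598785),
  ([.n, .c, .d, .c], 13675260809350),
  ([.n, .q, .d, .c], 4606353760519),
  ([.n, .c, .q, .c], 4743910404100),
  ([.n, .d, .q, .c], 17942344114240),
  ([.n, .q, .q, .c], 26392626204805),
  ([.n, .c, .c, .d], 9072147169477),
  ([.n, .q, .q, .d], 8797218173254),
  ([.n, .d, .c, .q], 17736085549063),
  ([.n, .c, .d, .q], 4812578771392),
  ([.n, .c, .q, .c, .c], 140678549956)]

/-- the codes of the elements of Oh -/
def cubOhE : List ℕ := [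
  31204079050816,
  4743909630208,
  17942343856129,
  26392624656706,
  22272727322755,
  17736085033408,
  415605739969,
  22272727580866,
  9278287004035,
  30929151602692,
  13469119942789,
  26873694519490,
  21997800132742,
  22066501796227,
  140678291719,
  17804787470785,
  30997853266177,
  13675260035458,
  26461327094083,
  346937630788,
  8797218947461,
  13469118394690,
  9278288036038,
  26873694261379,
  17804788244551,
  31204078792705,
  4812579287047,
  22066502828230,
  4606354018756,
  415606513735,
  26461328900293,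
  30997854298180,
  9072145363267,
  30929150828800,
  13262894416261,
  21997799358850,
  13262893642054,
  346936598785,
  13675260809350,
  4606353760519,
  4743910404100,
  17942344114240,
  26392626204805,
  9072147169477,
  8797218173254,
  17736085549063,
  4812578771392,
  140678549956]

theorem cubOh_map : cubOh.map Prod.snd = cubOhE := by decide +kernel

theorem cubOh_ok : cubM.okGroup .Oh cubOh = true := by decide +kernel

theorem cubOh_trans : cubM.okTrans cubOh = true := by decide +kernel

/-- the listed polyhedra -/
def cubR : List Row := [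
  ⟨.C [.c, .q] [.n, .d, .q] [.n, .d, .q], 21997800132742, [30929150828800, 31204078792705], [(4, 3), (4, 2), (1, 3), (1, 6), (0, 2), (0, 6)]⟩,
  ⟨.C [.n, .d] [.n, .d, .q] [.n, .d, .q], 26873694519490, [30929150828800, 415606513735], [(7, 6), (7, 2), (0, 6), (0, 2)]⟩]

theorem cubR_ok : (cubR.all fun r => cubM.okRow .Oh r) = true := by decide +kernel

theorem cubM_distinct : cubM.distinct = true := by decide +kernel

theorem cubM_zeroB : cubM.zeroB = true := by decide +kernel

end Pool.Agent.H38.FT
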