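import Pool.Agent.H38.FT.Model
import Pool.Agent.H38.FT.Rows
import Pool.Agent.H38.FT.Inj

/-! Data of a set of points (generated). -/

namespace Pool.Agent.H38.FT

open Code

/-- points and generators -/
def octM : Model where
  n := 6
  pts := [
    ⟨(2, 0), (0, 0), (0, 0), (0, 0), (0, 0), (0, 0)⟩,
    ⟨(0, 0), (0, 0), (2, 0), (0, 0), (0, 0), (0, 0)⟩,
    ⟨(-2, 0), (0, 0), (0, 0), (0, 0), (0, 0), (0, 0)⟩,
    ⟨(0, 0), (0, 0), (0, 0), (0, 0), (2, 0), (0, 0)⟩,
    ⟨(0, 0), (0, 0), (-2, 0), (0, 0), (0, 0), (0, 0)⟩,
    ⟨(0, 0), (0, 0), (0, 0), (0, 0), (-2, 0), (0, 0)⟩]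
  gc := fun l => match l with
    | .c => 2231386305
    | .d => 3239321856
    | .q => 5369512065
    | .p => 0
    | .n => 3239313666
    | .s => 5403066369

/-- the elements of T -/
def octT : List (List Letter × ℕ) := [
  ([], 5436612672),
  ([.c], 2231386305),
  ([.d], 3239321856),
  ([.c, .c], 4328804355),
  ([.d, .c], 2197819716),
  ([.c, .d], 50872641),
  ([.d, .c, .c], 1108357125),
  ([.c, .d, .c], 4295241861),
  ([.c, .c, .d], 1074811011),
  ([.d, .c, .d], 84414660),
  ([.c, .d, .c, .c], 3289645122),
  ([.c, .c, .d, .c], 5386273026)]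

/-- the codes of the elements of T -/
def octTE : List ℕ := [
  5436612672,
  2231386305,
  3239321856,
  4328804355,
  2197819716,
  50872641,
  1108357125,
  4295241861,
  1074811011,
  84414660,
  3289645122,
  5386273026]

theorem octT_map : octT.map Prod.snd = octTE := by decide +kernel

theorem octT_ok : octM.okGroup .T octT = true := by decide +kernel

theorem octT_trans : octM.okTrans octT = true := by decide +kernel

/-- the elements of Th -/
def octTh : List (List Letter × ℕ) := [
  ([], 5436612672),
  ([.c], 2231386305),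
  ([.d], 3239321856),
  ([.n], 3239313666),
  ([.c, .c], 4328804355),
  ([.d, .c], 2197819716),
  ([.n, .c], 50860356),
  ([.c, .d], 50872641),
  ([.n, .d], 5436604482),
  ([.d, .c, .c], 1108357125),
  ([.n, .c, .c], 1074802821),
  ([.c, .d, .c], 4295241861),
  ([.n, .d, .c], 84426945),
  ([.c, .c, .d], 1074811011),
  ([.d, .c, .d], 84414660),
  ([.n, .c, .d], 2231374020),
  ([.c, .d, .c, .c], 3289645122),
  ([.n, .d, .c, .c], 4295250051),
  ([.c, .c, .d, .c], 5386273026),
  ([.n, .c, .d, .c], 1108365315),
  ([.n, .c, .c, .d], 4328796165),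
  ([.n, .d, .c, .d], 2197832001),
  ([.n, .c, .d, .c, .c], 5386281216),
  ([.n, .c, .c, .d, .c], 3289653312)]

/-- the codes of the elements of Th -/
def octThE : List ℕ := [
  5436612672,
  2231386305,
  3239321856,
  3239313666,
  4328804355,
  2197819716,
  50860356,
  50872641,
  5436604482,
  1108357125,
  1074802821,
  4295241861,
  84426945,
  1074811011,
  84414660,
  2231374020,
  3289645122,
  4295250051,
  5386273026,
  1108365315,
  4328796165,
  2197832001,
  5386281216,
  3289653312]

theorem octTh_map : octTh.map Prod.snd = octThE := by decide +kernel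

theorem octTh_ok : octM.okGroup .Th octTh = true := by decide +kernel

theorem octTh_trans : octM.okTrans octTh = true := by decide +kernel

/-- the elements of Td -/
def octTd : List (List Letter × ℕ) := [
  ([], 5436612672),
  ([.c], 2231386305),
  ([.d], 3239321856),
  ([.s], 5403066369),
  ([.c, .c], 4328804355),
  ([.d, .c], 2197819716),
  ([.s, .c], 4379123904),
  ([.c, .d], 50872641),
  ([.s, .d], 3222552705),
  ([.c, .s], 2214613059),
  ([.d, .s], 3256094724),
  ([.d, .c, .c], 1108357125),
  ([.c, .d, .c], 4295241861),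
  ([.s, .d, .c], 4345561410),
  ([.d, .s, .c], 1125130560),
  ([.c, .c, .d], 1074811011),
  ([.d, .c, .d], 84414660),
  ([.c, .s, .d], 17322243),
  ([.d, .s, .d], 5369499780),
  ([.d, .c, .s], 2164273413),
  ([.c, .d, .s], 67645509),
  ([.s, .d, .s], 3289645122),
  ([.c, .c, .d, .c], 5386273026),
  ([.d, .s, .d, .c], 1158676674)]

/-- the codes of the elements of Td -/
def octTdE : List ℕ := [
  5436612672,
  2231386305,
  3239321856,
  5403066369,
  4328804355,
  2197819716,
  4379123904,
  50872641,
  3222552705,
  2214613059,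
  3256094724,
  1108357125,
  4295241861,
  4345561410,
  1125130560,
  1074811011,
  84414660,
  17322243,
  5369499780,
  2164273413,
  67645509,
  3289645122,
  5386273026,
  1158676674]

theorem octTd_map : octTd.map Prod.snd = octTdE := by decide +kernel

theorem octTd_ok : octM.okGroup .Td octTd = true := by decide +kernel

theorem octTd_trans : octM.okTrans octTd = true := by decide +kernel

/-- the elements of O -/
def octO : List (List Letter × ℕ) := [
  ([], 5436612672),
  ([.c], 2231386305),
  ([.d], 3239321856),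
  ([.q], 5369512065),
  ([.c, .c], 4328804355),
  ([.d, .c], 2197819716),
  ([.q, .c], 4379115714),
  ([.c, .d], 50872641),
  ([.q, .d], 3256107009),
  ([.c, .q], 2164281603),
  ([.d, .q], 3222540420),
  ([.q, .q], 5386273026),
  ([.d, .c, .c], 1108357125),
  ([.q, .c, .c], 67653699),
  ([.c, .d, .c], 4295241861),
  ([.q, .d, .c], 4345569600),
  ([.c, .q, .c], 5403054084),
  ([.d, .q, .c], 1125122370),
  ([.q, .q, .c], 84414660),
  ([.c, .c, .d], 1074811011),
  ([.q, .q, .d], 3289645122),
  ([.d, .c, .q], 2214604869),
  ([.c, .d, .q], 17314053),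
  ([.c, .q, .c, .c], 1158684864)]

/-- the codes of the elements of O -/
def octOE : List ℕ := [
  5436612672,
  2231386305,
  3239321856,
  5369512065,
  4328804355,
  2197819716,
  4379115714,
  50872641,
  3256107009,
  2164281603,
  3222540420,
  5386273026,
  1108357125,
  67653699,
  4295241861,
  4345569600,
  5403054084,
  1125122370,
  84414660,
  1074811011,
  3289645122,
  2214604869,
  17314053,
  1158684864]

theorem octO_map : octO.map Prod.snd = octOE := by decide +kernel

theorem octO_ok : octM.okGroup .O octO = true := by decide +kernel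

theorem octO_trans : octM.okTrans octO = true := by decide +kernel

/-- the elements of Oh -/
def octOh : List (List Letter × ℕ) := [
  ([], 5436612672),
  ([.c], 2231386305),
  ([.d], 3239321856),
  ([.q], 5369512065),
  ([.n], 3239313666),
  ([.c, .c], 4328804355),
  ([.d, .c], 2197819716),
  ([.q, .c], 4379115714),
  ([.n, .c], 50860356),
  ([.c, .d], 50872641),
  ([.q, .d], 3256107009),
  ([.n, .d], 5436604482),
  ([.c, .q], 2164281603),
  ([.d, .q], 3222540420),
  ([.q, .q], 5386273026),
  ([.n, .q], 3256094724),
  ([.d, .c, .c], 1108357125),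
  ([.q, .c, .c], 67653699),
  ([.n, .c, .c], 1074802821),
  ([.c, .d, .c], 4295241861),
  ([.q, .d, .c], 4345569600),
  ([.n, .d, .c], 84426945),
  ([.c, .q, .c], 5403054084),
  ([.d, .q, .c], 1125122370),
  ([.q, .q, .c], 84414660),
  ([.n, .q, .c], 1125130560),
  ([.c, .c, .d], 1074811011),
  ([.n, .c, .d], 2231374020),
  ([.q, .q, .d], 3289645122),
  ([.n, .q, .d], 5369499780),
  ([.d, .c, .q], 2214604869),
  ([.n, .c, .q], 67645509),
  ([.c, .d, .q], 17314053),
  ([.n, .d, .q], 5403066369),
  ([.n, .q, .q], 3289653312),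
  ([.n, .d, .c, .c], 4295250051),
  ([.c, .q, .c, .c], 1158684864),
  ([.n, .q, .c, .c], 2164273413),
  ([.n, .c, .d, .c], 1108365315),
  ([.n, .q, .d, .c], 1158676674),
  ([.n, .c, .q, .c], 3222552705),
  ([.n, .d, .q, .c], 4379123904),
  ([.n, .q, .q, .c], 2197832001),
  ([.n, .c, .c, .d], 4328796165),
  ([.n, .q, .q, .d], 5386281216),
  ([.n, .d, .c, .q], 17322243),
  ([.n, .c, .d, .q], 2214613059),
  ([.n, .c, .q, .c, .c], 4345561410)]

/-- the codes of the elements of Oh -/
def octOhE : List ℕ := [
  5436612672,
  2231386305,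
  3239321856,
  5369512065,
  3239313666,
  4328804355,
  2197819716,
  4379115714,
  50860356,
  50872641,
  3256107009,
  5436604482,
  2164281603,
  3222540420,
  5386273026,
  3256094724,
  1108357125,
  67653699,
  1074802821,
  4295241861,
  4345569600,
  84426945,
  5403054084,
  1125122370,
  84414660,
  1125130560,
  1074811011,
  2231374020,
  3289645122,
  5369499780,
  2214604869,
  67645509,
  17314053,
  5403066369,
  3289653312,
  4295250051,
  1158684864,
  2164273413,
  1108365315,
  1158676674,
  3222552705,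
  4379123904,
  2197832001,
  4328796165,
  5386281216,
  17322243,
  2214613059,
  4345561410]

theorem octOh_map : octOh.map Prod.snd = octOhE := by decide +kernel

theorem octOh_ok : octM.okGroup .Oh octOh = true := by decide +kernel

theorem octOh_trans : octM.okTrans octOh = true := by decide +kernel

/-- the listed polyhedra -/
def octR : List Row := [
  ⟨.C [.c, .q] [.n, .q, .c] [.n, .q, .c], 2164281603, [1125130560, 5403066369], [(5, 2), (5, 4), (1, 2), (1, 3), (0, 4), (0, 3)]⟩,
  ⟨.C [.n, .c, .q] [.n, .q, .c] [.n, .q, .c], 67645509, [1125130560, 5403066369], [(1, 5), (0, 1), (0, 5)]⟩]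

theorem octR_ok : (octR.all fun r => octM.okRow .Oh r) = true := by decide +kernel

theorem octM_distinct : octM.distinct = true := by decide +kernel

theorem octM_zeroB : octM.zeroB = true := by decide +kernel

end Pool.Agent.H38.FT
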