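import Pool.Agent.H38.FT.Model
import Pool.Agent.H38.FT.Rows
import Pool.Agent.H38.FT.Inj

/-! Data of a set of points (generated). -/

namespace Pool.Agent.H38.FT

open Code

/-- points and generators -/
def tdmM : Model where
  n := 12
  pts := [
    ⟨(2, 0), (0, 0), (2, 0), (0, 0), (0, 0), (2, 0)⟩,
    ⟨(0, 0), (2, 0), (2, 0), (0, 0), (2, 0), (0, 0)⟩,
    ⟨(2, 0), (0, 0), (-2, 0), (0, 0), (0, 0), (-2, 0)⟩,
    ⟨(2, 0), (0, 0), (0, 0), (2, 0), (2, 0), (0, 0)⟩,
    ⟨(0, 0), (2, 0), (-2, 0), (0, 0), (-2, 0), (0, 0)⟩,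
    ⟨(0, 0), (-2, 0), (2, 0), (0, 0), (-2, 0), (0, 0)⟩,
    ⟨(-2, 0), (0, 0), (2, 0), (0, 0), (0, 0), (-2, 0)⟩,
    ⟨(2, 0), (0, 0), (0, 0), (-2, 0), (-2, 0), (0, 0)⟩,
    ⟨(-2, 0), (0, 0), (0, 0), (2, 0), (-2, 0), (0, 0)⟩,
    ⟨(-2, 0), (0, 0), (0, 0), (-2, 0), (2, 0), (0, 0)⟩,
    ⟨(0, 0), (-2, 0), (-2, 0), (0, 0), (2, 0), (0, 0)⟩,
    ⟨(-2, 0), (0, 0), (-2, 0), (0, 0), (0, 0), (2, 0)⟩]
  gc := fun l => match l with
    | .c => 303257507818635284673
    | .d => 448633127715739533570
    | .q => 0
    | .p => 0
    | .n => 0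
    | .s => 822214324805005762752

/-- the elements of Td -/
def tdmTd : List (List Letter × ℕ) := [
  ([], 823350366879766814784),
  ([.c], 303257507818635284673),
  ([.d], 448633127715739533570),
  ([.s], 822214324805005762752),
  ([.c, .c], 597304581742634766339),
  ([.d, .c], 77247478389369512388),
  ([.s, .c], 596171609922913464387),
  ([.c, .d], 748444778105847419397),
  ([.s, .d], 155719280629405450758),
  ([.c, .s], 297582140710590390273),
  ([.d, .s], 452035627257246560706),
  ([.d, .c, .c], 676945370860783435911),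
  ([.c, .d, .c], 221381776255298597256),
  ([.s, .d, .c], 222514462203087196488),
  ([.d, .s, .c], 675811849488218730759),
  ([.c, .c, .d], 518888146996250030793),
  ([.d, .c, .d], 378266348770256765514),
  ([.c, .s, .d], 375998509485912232650),
  ([.d, .s, .d], 3478204300426486347),
  ([.d, .c, .s], 73843588648637583492),
  ([.c, .d, .s], 750714904365653574021),
  ([.s, .d, .s], 152312623406262563142),
  ([.c, .c, .d, .c], 1208970351164547723),
  ([.d, .s, .d, .c], 521156575474911838857)]

/-- the codes of the elements of Td -/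
def tdmTdE : List ℕ := [
  823350366879766814784,
  303257507818635284673,
  448633127715739533570,
  822214324805005762752,
  597304581742634766339,
  77247478389369512388,
  596171609922913464387,
  748444778105847419397,
  155719280629405450758,
  297582140710590390273,
  452035627257246560706,
  676945370860783435911,
  221381776255298597256,
  222514462203087196488,
  675811849488218730759,
  518888146996250030793,
  378266348770256765514,
  375998509485912232650,
  3478204300426486347,
  73843588648637583492,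
  750714904365653574021,
  152312623406262563142,
  1208970351164547723,
  521156575474911838857]

theorem tdmTd_map : tdmTd.map Prod.snd = tdmTdE := by decide +kernel

theorem tdmTd_ok : tdmM.okGroup .Td tdmTd = true := by decide +kernel

theorem tdmTd_trans : tdmM.okTrans tdmTd = true := by decide +kernel

/-- the listed polyhedra -/
def tdmR : List Row := [
  ⟨.A [.s] [.d, .c], 518888146996250030793, [155719280629405450758], [(2, 9), (2, 5), (11, 5), (11, 3), (6, 3), (6, 4), (0, 4), (0, 9)]⟩,
  ⟨.B [.s] [.d, .c], 518888146996250030793, [750714904365653574021, 596171609922913464387], [(11, 7), (11, 1), (8, 2), (10, 7), (8, 1), (10, 6), (3, 4), (5, 2), (3, 6), (5, 9), (0, 4), (0, 9)]⟩,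
  ⟨.B [.s] [.s, .d, .c], 521156575474911838857, [750714904365653574021, 297582140710590390273], [(6, 3), (6, 7), (1, 8), (5, 3), (1, 7), (5, 9), (0, 8), (0, 9)]⟩]

theorem tdmR_ok : (tdmR.all fun r => tdmM.okRow .Td r) = true := by decide +kernel

theorem tdmM_distinct : tdmM.distinct = true := by decide +kernel

end Pool.Agent.H38.FT
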