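import Pool.Agent.H38.FT.Model
import Pool.Agent.H38.FT.Rows
import Pool.Agent.H38.FT.Inj

/-! Data of a set of points (generated). -/

namespace Pool.Agent.H38.FT

open Code

/-- points and generators -/
def tetM : Model where
  n := 4
  pts := [
    ⟨(2, 0), (0, 0), (2, 0), (0, 0), (2, 0), (0, 0)⟩,
    ⟨(2, 0), (0, 0), (-2, 0), (0, 0), (-2, 0), (0, 0)⟩,
    ⟨(-2, 0), (0, 0), (2, 0), (0, 0), (-2, 0), (0, 0)⟩,
    ⟨(-2, 0), (0, 0), (-2, 0), (0, 0), (2, 0), (0, 0)⟩]
  gc := fun l => match l with
    | .c => 274560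
    | .d => 536577
    | .q => 0
    | .p => 0
    | .n => 0
    | .s => 790656

/-- the elements of T -/
def tetT : List (List Letter × ℕ) := [
  ([], 794688),
  ([.c], 274560),
  ([.d], 536577),
  ([.c, .c], 528576),
  ([.d, .c], 8385),
  ([.c, .d], 790530),
  ([.d, .c, .c], 786561),
  ([.c, .d, .c], 12354),
  ([.c, .c, .d], 270339),
  ([.d, .c, .d], 524355),
  ([.c, .d, .c, .c], 262338),
  ([.c, .c, .d, .c], 4227)]

/-- the codes of the elements of T -/
def tetTE : List ℕ := [
  794688,
  274560,
  536577,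
  528576,
  8385,
  790530,
  786561,
  12354,
  270339,
  524355,
  262338,
  4227]

theorem tetT_map : tetT.map Prod.snd = tetTE := by decide +kernel

theorem tetT_ok : tetM.okGroup .T tetT = true := by decide +kernel

theorem tetT_trans : tetM.okTrans tetT = true := by decide +kernel

/-- the elements of Td -/
def tetTd : List (List Letter × ℕ) := [
  ([], 794688),
  ([.c], 274560),
  ([.d], 536577),
  ([.s], 790656),
  ([.c, .c], 528576),
  ([.d, .c], 8385),
  ([.s, .c], 536640),
  ([.c, .d], 790530),
  ([.s, .d], 274434),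
  ([.c, .s], 270528),
  ([.d, .s], 524481),
  ([.d, .c, .c], 786561),
  ([.c, .d, .c], 12354),
  ([.s, .d, .c], 4290),
  ([.d, .s, .c], 794625),
  ([.c, .c, .d], 270339),
  ([.d, .c, .d], 524355),
  ([.c, .s, .d], 528387),
  ([.d, .s, .d], 8259),
  ([.d, .c, .s], 12417),
  ([.c, .d, .s], 786498),
  ([.s, .d, .s], 262338),
  ([.c, .c, .d, .c], 4227),
  ([.d, .s, .d, .c], 262275)]

/-- the codes of the elements of Td -/
def tetTdE : List ℕ := [
  794688,
  274560,
  536577,
  790656,
  528576,
  8385,
  536640,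
  790530,
  274434,
  270528,
  524481,
  786561,
  12354,
  4290,
  794625,
  270339,
  524355,
  528387,
  8259,
  12417,
  786498,
  262338,
  4227,
  262275]

theorem tetTd_map : tetTd.map Prod.snd = tetTdE := by decide +kernel

theorem tetTd_ok : tetM.okGroup .Td tetTd = true := by decide +kernel

theorem tetTd_trans : tetM.okTrans tetTd = true := by decide +kernel

/-- the listed polyhedra -/
def tetR : List Row := [
  ⟨.C [.d] [.s] [.s], 536577, [790656, 8259], [(3, 2), (3, 1), (0, 2), (0, 1)]⟩,
  ⟨.C [.c, .d, .s] [.s] [.s], 786498, [790656, 794625], [(1, 2), (0, 1), (0, 2)]⟩]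

theorem tetR_ok : (tetR.all fun r => tetM.okRow .Td r) = true := by decide +kernel

theorem tetM_distinct : tetM.distinct = true := by decide +kernel

theorem tetM_zeroB : tetM.zeroB = true := by decide +kernel

end Pool.Agent.H38.FT
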