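import Pool.Agent.H38.FT.Model
import Pool.Agent.H38.FT.Rows
import Pool.Agent.H38.FT.Inj

/-! Data of a set of points (generated). -/

namespace Pool.Agent.H38.FT

open Code

/-- points and generators -/
def thmM : Model where
  n := 12
  pts := [
    ⟨(2, 0), (0, 0), (0, 0), (2, 0), (0, 0), (0, 0)⟩,
    ⟨(0, 0), (0, 0), (2, 0), (0, 0), (0, 0), (2, 0)⟩,
    ⟨(2, 0), (0, 0), (0, 0), (-2, 0), (0, 0), (0, 0)⟩,
    ⟨(-2, 0), (0, 0), (0, 0), (-2, 0), (0, 0), (0, 0)⟩,
    ⟨(0, 0), (2, 0), (0, 0), (0, 0), (2, 0), (0, 0)⟩,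
    ⟨(0, 0), (0, 0), (-2, 0), (0, 0), (0, 0), (-2, 0)⟩,
    ⟨(0, 0), (0, 0), (2, 0), (0, 0), (0, 0), (-2, 0)⟩,
    ⟨(-2, 0), (0, 0), (0, 0), (2, 0), (0, 0), (0, 0)⟩,
    ⟨(0, 0), (2, 0), (0, 0), (0, 0), (-2, 0), (0, 0)⟩,
    ⟨(0, 0), (-2, 0), (0, 0), (0, 0), (-2, 0), (0, 0)⟩,
    ⟨(0, 0), (-2, 0), (0, 0), (0, 0), (2, 0), (0, 0)⟩,
    ⟨(0, 0), (0, 0), (-2, 0), (0, 0), (0, 0), (2, 0)⟩]
  gc := fun l => match l with
    | .c => 592657715963656167681
    | .d => 453279435146756096322
    | .q => 0
    | .p => 0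
    | .n => 452020111702921081155
    | .s => 0

/-- the elements of Th -/
def thmTh : List (List Letter × ℕ) := [
  ([], 823350366879766814784),
  ([.c], 592657715963656167681),
  ([.d], 453279435146756096322),
  ([.n], 452020111702921081155),
  ([.c, .c], 523519566633851199492),
  ([.d, .c], 295274877411374969349),
  ([.n, .c], 745940803372963902021),
  ([.c, .d], 741364578803625235014),
  ([.n, .d], 816415074142367789127),
  ([.d, .c, .c], 234062786283348463752),
  ([.n, .c, .c], 160275836850307891401),
  ([.c, .d, .c], 1352531451967472073),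
  ([.n, .d, .c], 667577628626481603201),
  ([.c, .c, .d], 153446968042385850570),
  ([.d, .c, .d], 672153804817311486603),
  ([.n, .c, .d], 590422760668142260491),
  ([.c, .d, .c, .c], 378233125935533011335),
  ([.n, .d, .c, .c], 7010737035675713994),
  ([.c, .c, .d, .c], 78545319922432504515),
  ([.n, .c, .d, .c], 227233939465657688196),
  ([.n, .c, .c, .d], 517861339059911692296),
  ([.n, .d, .c, .d], 297509784328380092934),
  ([.n, .c, .d, .c, .c], 85480586271554011842),
  ([.n, .c, .c, .d, .c], 379492475767645544832)]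

/-- the codes of the elements of Th -/
def thmThE : List ℕ := [
  823350366879766814784,
  592657715963656167681,
  453279435146756096322,
  452020111702921081155,
  523519566633851199492,
  295274877411374969349,
  745940803372963902021,
  741364578803625235014,
  816415074142367789127,
  234062786283348463752,
  160275836850307891401,
  1352531451967472073,
  667577628626481603201,
  153446968042385850570,
  672153804817311486603,
  590422760668142260491,
  378233125935533011335,
  7010737035675713994,
  78545319922432504515,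
  227233939465657688196,
  517861339059911692296,
  297509784328380092934,
  85480586271554011842,
  379492475767645544832]

theorem thmTh_map : thmTh.map Prod.snd = thmThE := by decide +kernel

theorem thmTh_ok : thmM.okGroup .Th thmTh = true := by decide +kernel

theorem thmTh_trans : thmM.okTrans thmTh = true := by decide +kernel

/-- the listed polyhedra -/
def thmR : List Row := [
  ⟨.A [.n, .c, .c, .d, .c] [.c], 523519566633851199492, [7010737035675713994], [(11, 4), (11, 2), (8, 2), (8, 5), (3, 5), (3, 9), (6, 9), (6, 7), (10, 7), (10, 1), (0, 1), (0, 4)]⟩,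
  ⟨.B [.n, .c, .c, .d, .c] [.c], 523519566633851199492, [85480586271554011842, 816415074142367789127], [(3, 11), (3, 10), (7, 1), (2, 11), (7, 10), (2, 4), (0, 1), (0, 4)]⟩,
  ⟨.B [.n, .c, .c, .d, .c] [.n, .c, .c, .d, .c, .c], 227233939465657688196, [85480586271554011842, 816415074142367789127], [(3, 5), (3, 10), (7, 6), (2, 5), (7, 10), (2, 4), (0, 6), (0, 4)]⟩,
  ⟨.A [.n, .c, .c, .d, .c] [.d, .c], 153446968042385850570, [227233939465657688196], [(6, 10), (6, 2), (9, 2), (9, 1), (3, 1), (3, 8), (11, 8), (11, 7), (4, 7), (4, 5), (0, 5), (0, 10)]⟩,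
  ⟨.B [.n, .c, .c, .d, .c] [.d, .c], 153446968042385850570, [85480586271554011842, 816415074142367789127], [(3, 6), (3, 4), (7, 5), (2, 6), (7, 4), (2, 10), (0, 5), (0, 10)]⟩,
  ⟨.B [.n, .c, .c, .d, .c] [.n, .c, .c, .d, .c, .d, .c], 7010737035675713994, [85480586271554011842, 816415074142367789127], [(3, 1), (3, 4), (7, 11), (2, 1), (7, 4), (2, 10), (0, 11), (0, 10)]⟩]

theorem thmR_ok : (thmR.all fun r => thmM.okRow .Th r) = true := by decide +kernel

theorem thmM_distinct : thmM.distinct = true := by decide +kernel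

end Pool.Agent.H38.FT
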